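import Pool.Agent.Helper10.QRH.StC

/-! QRH-C0b: candidate pairs, uniqueness and counting. -/

set_option autoImplicit false

open Pool.Agent.Helper10.QRH

namespace Pool.Agent.Helper65.QRH

variable (P : Par)

theorem nu_pos : 0 < P.ν := by
  unfold Par.ν
  have := P.κ0
  have := P.η0
  have := P.φ0
  positivity

theorem nu_le : P.ν ≤ 1 / 1600 := by
  unfold Par.ν
  have h1 : min P.κ (min P.η P.φ) ≤ P.κ := min_le_left _ _
  have := P.κ1
  linarith

theorem d_pos : 0 < P.d := by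
  unfold Par.d
  have := nu_pos P
  positivity

theorem d_le : P.d ≤ 1 / 2 := by
  unfold Par.d
  have := nu_le P
  linarith

theorem e_le_real (k : ℕ) : (P.e k : ℝ) ≤ k * (1 / 2 - P.d) := by
  unfold Par.e
  apply Nat.floor_le
  have := d_le P
  exact mul_nonneg (Nat.cast_nonneg k) (by linarith)

theorem e_le (k : ℕ) : P.e k ≤ k := by
  have h := e_le_real P k
  have h2 : (k : ℝ) * (1 / 2 - P.d) ≤ k := by
    have := d_pos P
    have hk : (0 : ℝ) ≤ k := Nat.cast_nonneg k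
    nlinarith
  exact_mod_cast h.trans h2

theorem two_pow_e_le (k : ℕ) : (2 : ℝ) ^ P.e k ≤ (2 : ℝ) ^ ((1 / 2 - P.d) * k) := by
  rw [← Real.rpow_natCast]
  apply Real.rpow_le_rpow_of_exponent_le (by norm_num)
  have := e_le_real P k
  linarith

theorem log_block {k n : ℕ} (h1 : 2 ^ k ≤ n) (h2 : n < 2 ^ (k + 1)) : Nat.log 2 n = k :=
  Nat.log_eq_of_pow_le_of_lt_pow h1 h2

theorem prime_facs_le (m : ℕ) (hm : 0 < m) (b : ℝ) (hb : 0 ≤ b)
    (h : ∀ p : ℕ, p.Prime → p ∣ m → b ≤ p) : b ^ m.primeFactorsList.length ≤ m := by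
  have h1 : ∀ l : List ℕ, (∀ p ∈ l, b ≤ (p : ℝ)) → b ^ l.length ≤ ((l.prod : ℕ) : ℝ) := by
    intro l
    induction l with
    | nil => intro _; simp
    | cons a l ih =>
      intro hl
      rw [List.length_cons, List.prod_cons, pow_succ, Nat.cast_mul, mul_comm]
      apply mul_le_mul (hl a (List.mem_cons_self)) (ih fun p hp => hl p (List.mem_cons_of_mem _ hp))
        (pow_nonneg hb _) (hb.trans (hl a (List.mem_cons_self)))
  have h2 := h1 m.primeFactorsList (fun p hp => h p (Nat.prime_of_mem_primeFactorsList hp)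
    (Nat.dvd_of_mem_primeFactorsList hp))
  rwa [Nat.prod_primeFactorsList hm.ne'] at h2

theorem unique {k : ℕ} (hk : 1 ≤ 2 * P.κ * k) {x y : ℕ × ℕ} (hx : x ∈ P.Cd k) (hy : y ∈ P.Cd k)
    (h : x.1 * x.2 = y.1 * y.2) : x = y := by
  obtain ⟨hx1, hx2, hx3, hx4, hx5, _, _⟩ := hx
  obtain ⟨hy1, hy2, hy3, hy4, hy5, _, _⟩ := hy
  by_cases hq : x.1 = y.1
  · apply Prod.ext hq
    rw [hq] at h
    exact Nat.eq_of_mul_eq_mul_left hy1.pos h
  · exfalso
    have hcop : Nat.Coprime x.1 y.1 := (Nat.coprime_primes hx1 hy1).2 hq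
    have hdvd : x.1 * y.1 ∣ x.1 * x.2 :=
      hcop.mul_dvd_of_dvd_of_dvd (dvd_mul_right _ _) (h ▸ dvd_mul_right _ _)
    have hle : x.1 * y.1 ≤ x.1 * x.2 := Nat.le_of_dvd (Nat.mul_pos hx1.pos hx2) hdvd
    have h1 : x.1 * y.1 < 2 ^ (k + 1) := hle.trans_lt hx4
    have h1' : ((x.1 : ℝ) * y.1) < (2 : ℝ) ^ (k + 1) := by exact_mod_cast h1
    have h2 : (2 : ℝ) ^ ((1/2 + P.κ) * k) * (2 : ℝ) ^ ((1/2 + P.κ) * k) ≤ (x.1 : ℝ) * y.1 :=
      mul_le_mul hx5 hy5 (by positivity) (by positivity)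
    rw [← Real.rpow_add (by norm_num)] at h2
    have h3 : (2 : ℝ) ^ (k + 1) ≤ (2 : ℝ) ^ ((1/2 + P.κ) * k + (1/2 + P.κ) * k) := by
      rw [← Real.rpow_natCast]
      apply Real.rpow_le_rpow_of_exponent_le (by norm_num)
      push_cast
      nlinarith
    linarith

theorem card_le {k : ℕ} (hk : 1 ≤ 2 * P.κ * k) {k0 : ℕ} (hk0 : k0 ≤ k) (hF : P.FewBad k0)
    (T : Finset (ℕ × ℕ)) (hT : ∀ x ∈ T, x ∈ P.Cd k) :
    (T.card : ℝ) ≤ (2 : ℝ) ^ ((1/2 - P.d + P.ν) * k) := by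
  classical
  set Bd := (Finset.range (2 ^ (k - P.e k))).filter (fun j => P.bad k j) with hBd
  have hinj : Set.InjOn (fun x : ℕ × ℕ => x.1 * x.2) (T : Set (ℕ × ℕ)) := by
    intro x hx y hy hxy
    exact unique P hk (hT x hx) (hT y hy) hxy
  have hsub : T.image (fun x : ℕ × ℕ => x.1 * x.2) ⊆ Bd.biUnion (fun j => P.cell k j) := by
    intro n hn
    obtain ⟨x, hx, rfl⟩ := Finset.mem_image.1 hn
    obtain ⟨_, _, hx3, hx4, _, _, hx7⟩ := hT x hx
    have hlog : Nat.log 2 (x.1 * x.2) = k := log_block hx3 hx4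
    unfold Par.badN at hx7
    rw [hlog] at hx7
    set n := x.1 * x.2 with hn
    have hidx : P.idx n = (n - 2 ^ k) / 2 ^ P.e k := by
      unfold Par.idx
      rw [hlog]
    have he := e_le P k
    have hpow : 2 ^ (k - P.e k) * 2 ^ P.e k = 2 ^ k := by
      rw [← pow_add, Nat.sub_add_cancel he]
    have hpos : 0 < 2 ^ P.e k := by positivity
    have hlt : (n - 2 ^ k) / 2 ^ P.e k < 2 ^ (k - P.e k) := by
      rw [Nat.div_lt_iff_lt_mul hpos, hpow]
      rw [pow_succ] at hx4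
      omega
    rw [hidx] at hx7
    refine Finset.mem_biUnion.2 ⟨(n - 2 ^ k) / 2 ^ P.e k,
      Finset.mem_filter.2 ⟨Finset.mem_range.2 hlt, hx7⟩, ?_⟩
    unfold Par.cell
    rw [Finset.mem_Ico]
    have h1 : (n - 2 ^ k) / 2 ^ P.e k * 2 ^ P.e k ≤ n - 2 ^ k := Nat.div_mul_le_self _ _
    have h2 : n - 2 ^ k < ((n - 2 ^ k) / 2 ^ P.e k + 1) * 2 ^ P.e k := by
      have := Nat.lt_mul_div_succ (n - 2 ^ k) hpos
      rw [mul_comm]
      exact this
    constructor
    · omega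
    · omega
  have hcell : ∀ j, (P.cell k j).card = 2 ^ P.e k := by
    intro j
    unfold Par.cell
    rw [Nat.card_Ico]
    have h1 : (j + 1) * 2 ^ P.e k = j * 2 ^ P.e k + 2 ^ P.e k := by ring
    rw [h1, ← add_assoc, Nat.add_sub_cancel_left]
  have hc1 : T.card ≤ Bd.card * 2 ^ P.e k := by
    rw [← Finset.card_image_of_injOn hinj]
    refine (Finset.card_le_card hsub).trans ?_
    refine Finset.card_biUnion_le.trans ?_
    rw [Finset.sum_congr rfl (fun j _ => hcell j), Finset.sum_const, smul_eq_mul]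
  have hB : (Bd.card : ℝ) ≤ (2 : ℝ) ^ (P.ν * k) := by
    have := hF k hk0
    convert this using 2
  calc (T.card : ℝ) ≤ (Bd.card : ℝ) * 2 ^ P.e k := by exact_mod_cast hc1
    _ ≤ (2 : ℝ) ^ (P.ν * k) * (2 : ℝ) ^ ((1 / 2 - P.d) * k) :=
        mul_le_mul hB (two_pow_e_le P k) (by positivity) (by positivity)
    _ = (2 : ℝ) ^ ((1/2 - P.d + P.ν) * k) := by
        rw [← Real.rpow_add (by norm_num)]
        congr 1
        ring

theorem cof {k : ℕ} (hk : 2 ≤ k) {x : ℕ × ℕ} (hx : x ∈ P.Cd k) :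
    (x.2 : ℝ) ≤ (2 : ℝ) ^ ((1/2 - P.κ) * k + 1) ∧
      (x.2.primeFactorsList.length : ℝ) ≤ 1 / P.η := by
  obtain ⟨hx1, hx2, hx3, hx4, hx5, hx6, _⟩ := hx
  have hm : (x.2 : ℝ) ≤ (2 : ℝ) ^ ((1/2 - P.κ) * k + 1) := by
    have h4 : (x.1 : ℝ) * x.2 < (2 : ℝ) ^ (k + 1) := by exact_mod_cast hx4
    have hpos : 0 < (2 : ℝ) ^ ((1/2 + P.κ) * k) := by positivity
    have h5 : (2 : ℝ) ^ ((1/2 + P.κ) * k) * x.2 ≤ (x.1 : ℝ) * x.2 :=
      mul_le_mul_of_nonneg_right hx5 (Nat.cast_nonneg _)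
    have h6 : (2 : ℝ) ^ (k + 1) = (2 : ℝ) ^ ((1/2 + P.κ) * k) * (2 : ℝ) ^ ((1/2 - P.κ) * k + 1) := by
      rw [← Real.rpow_add (by norm_num), ← Real.rpow_natCast]
      congr 1
      push_cast
      ring
    rw [h6] at h4
    exact le_of_mul_le_mul_left (h5.trans h4.le) hpos
  refine ⟨hm, ?_⟩
  have h1 := prime_facs_le x.2 hx2 ((2 : ℝ) ^ (P.η * k)) (by positivity) hx6
  have h2 := h1.trans hm
  rw [← Real.rpow_natCast, ← Real.rpow_mul (by norm_num)] at h2
  have h3 := (Real.rpow_le_rpow_left_iff (by norm_num : (1 : ℝ) < 2)).1 h2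
  have hη := P.η0
  have hκ := P.κ0
  have hk2 : (2 : ℝ) ≤ k := by exact_mod_cast hk
  rw [le_div_iff₀ hη]
  have h4 : (1/2 - P.κ) * k + 1 ≤ k := by nlinarith
  have h5 : P.η * k * x.2.primeFactorsList.length ≤ 1 * k := by linarith
  have h6 : (x.2.primeFactorsList.length * P.η) * k ≤ 1 * k := by linarith
  exact le_of_mul_le_mul_right h6 (by linarith)

theorem mult_count {q x h : ℕ} (hq : 0 < q) (T : Finset ℕ)
    (hT : ∀ a ∈ T, x ≤ q * a ∧ q * a < x + h) : (T.card : ℝ) ≤ (h : ℝ) / q + 1 := by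
  have hq' : (0 : ℝ) < q := by exact_mod_cast hq
  rcases T.eq_empty_or_nonempty with rfl | hne
  · simp only [Finset.card_empty, Nat.cast_zero]
    positivity
  · have h1 := hT _ (T.min'_mem hne)
    have h2 := hT _ (T.max'_mem hne)
    have hsub : T ⊆ Finset.Icc (T.min' hne) (T.max' hne) := fun a ha =>
      Finset.mem_Icc.2 ⟨T.min'_le a ha, T.le_max' a ha⟩
    have hc := Finset.card_le_card hsub
    rw [Nat.card_Icc] at hc
    have hle : T.min' hne ≤ T.max' hne := T.min'_le _ (T.max'_mem hne)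
    have h3 : q * T.max' hne < q * T.min' hne + h := by omega
    have h3' : (q : ℝ) * T.max' hne < q * T.min' hne + h := by exact_mod_cast h3
    have hc' : (T.card : ℝ) + T.min' hne ≤ T.max' hne + 1 := by
      have : T.card + T.min' hne ≤ T.max' hne + 1 := by omega
      exact_mod_cast this
    have h4 : ((T.max' hne : ℝ) - T.min' hne) ≤ h / q := by
      rw [le_div_iff₀ hq']
      nlinarith
    linarith

theorem cdFacts (P : Par) : CdFacts P where
  unique := fun hk _ _ hx hy h => unique P hk hx hy h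
  block := fun {_ x} hx => log_block hx.2.2.1 hx.2.2.2.1
  card := by
    refine ⟨⌈1 / (2 * P.κ)⌉₊, ?_⟩
    intro k0 hk0 hF k hk T hT
    apply card_le P _ hk hF T hT
    have hκ := P.κ0
    have h1 : 1 / (2 * P.κ) ≤ k := (Nat.le_ceil _).trans (by exact_mod_cast hk0.trans hk)
    rw [div_le_iff₀ (by positivity)] at h1
    linarith
  cof := fun hk _ hx => cof P hk hx
  mult_count := fun hq T hT => mult_count hq T hT

end Pool.Agent.Helper65.QRH
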