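import Pool.Agent.Helper10.QRH.StC

/-! QRH-C9: the other integers of a cell and of the initial cell. -/

set_option autoImplicit false

open Pool.Agent.Helper10.QRH Filter Topology
open scoped Classical

namespace Pool.Agent.Helper65.QRH

theorem sum_union_le {α : Type*} [DecidableEq α] (A B : Finset α) (f : α → ℝ)
    (hf : ∀ a, 0 ≤ f a) : ∑ a ∈ A ∪ B, f a ≤ ∑ a ∈ A, f a + ∑ a ∈ B, f a := by
  rw [← Finset.sum_union_inter]
  have : 0 ≤ ∑ a ∈ A ∩ B, f a := Finset.sum_nonneg fun a _ => hf a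
  linarith

theorem othersCell (P : Par) (hw : WFacts P) (h1 : Class1 P) (h2 : Class2 P) (h3 : Class3 P)
    (h4 : Class4 P) (h5 : Class5 P) : OthersCell P := by
  intro ε hε
  obtain ⟨K1, h1⟩ := h1 (ε / 5) (by positivity)
  obtain ⟨K2, h2⟩ := h2 (ε / 5) (by positivity)
  obtain ⟨K3, h3⟩ := h3 (ε / 5) (by positivity)
  obtain ⟨K4, h4⟩ := h4 (ε / 5) (by positivity)
  obtain ⟨K5, h5⟩ := h5 (ε / 5) (by positivity)
  refine ⟨K1 + K2 + K3 + K4 + K5 + 1, ?_⟩
  intro k0 hk0 hF S k hk j hj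
  have g1 := h1 k0 (by omega) hF S k hk j hj
  have g2 := h2 k0 (by omega) hF S k hk j hj
  have g3 := h3 k0 (by omega) hF S k hk j hj
  have g4 := h4 k0 (by omega) hF S k hk j hj
  have g5 := h5 k0 (by omega) hF S k hk j hj
  have hnn : ∀ n, 0 ≤ S.WW n := hw.WW_nonneg S (by omega)
  set F1 := (P.cell k j).filter (fun n => n ∉ S.own k j ∧
      ∃ p, P.Ord k0 p ∧ p ∣ n ∧ (2 : ℝ) ^ (0.8 * (k : ℝ)) ≤ p) with hF1
  set F2 := (P.cell k j).filter (fun n =>
      (¬ ∃ p, P.Ord k0 p ∧ p ∣ n ∧ (2 : ℝ) ^ (0.8 * (k : ℝ)) ≤ p) ∧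
      (S.cp n : ℝ) < (2 : ℝ) ^ ((k : ℝ) / 20)) with hF2
  set F3 := (P.cell k j).filter (fun n => (2 : ℝ) ^ ((k : ℝ) / 20) ≤ S.cp n ∧
      ∀ p, S.ctrl p → p ∣ n → (p : ℝ) < (2 : ℝ) ^ ((k : ℝ) / 10)) with hF3
  set F4 := (P.cell k j).filter (fun n => ∃ p, S.ctrl p ∧ p ∣ n ∧
      (2 : ℝ) ^ ((k : ℝ) / 10) ≤ p ∧
      (¬ S.mo p ∣ n / p ∨ (Nat.log 2 (p * S.mo p) : ℝ) ≤ (1 - 7 * P.ν) * k ∨
        (1 + 7 * P.ν) * k ≤ (Nat.log 2 (p * S.mo p) : ℝ))) with hF4
  set F5 := (P.cell k j).filter (fun n => n ∉ S.own k j ∧ ∃ p, S.ctrl p ∧ p ∣ n ∧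
      S.mo p ∣ n / p ∧
      (1 - 7 * P.ν) * k < (Nat.log 2 (p * S.mo p) : ℝ) ∧
      (Nat.log 2 (p * S.mo p) : ℝ) < (1 + 7 * P.ν) * k) with hF5
  have hsub : (P.cell k j).filter (fun n => n ∉ S.own k j) ⊆ F1 ∪ (F2 ∪ (F3 ∪ (F4 ∪ F5))) := by
    intro n hn
    obtain ⟨hn1, hn2⟩ := Finset.mem_filter.1 hn
    simp only [Finset.mem_union]
    by_cases c1 : ∃ p, P.Ord k0 p ∧ p ∣ n ∧ (2 : ℝ) ^ (0.8 * (k : ℝ)) ≤ p
    · exact Or.inl (Finset.mem_filter.2 ⟨hn1, hn2, c1⟩)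
    · right
      by_cases c2 : (S.cp n : ℝ) < (2 : ℝ) ^ ((k : ℝ) / 20)
      · exact Or.inl (Finset.mem_filter.2 ⟨hn1, c1, c2⟩)
      · right
        push Not at c2
        by_cases c3 : ∀ p, S.ctrl p → p ∣ n → (p : ℝ) < (2 : ℝ) ^ ((k : ℝ) / 10)
        · exact Or.inl (Finset.mem_filter.2 ⟨hn1, c2, c3⟩)
        · right
          push Not at c3
          obtain ⟨p, hp1, hp2, hp3⟩ := c3
          by_cases c4 : ¬ S.mo p ∣ n / p ∨ (Nat.log 2 (p * S.mo p) : ℝ) ≤ (1 - 7 * P.ν) * k ∨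
              (1 + 7 * P.ν) * k ≤ (Nat.log 2 (p * S.mo p) : ℝ)
          · exact Or.inl (Finset.mem_filter.2 ⟨hn1, p, hp1, hp2, hp3, c4⟩)
          · push Not at c4
            exact Or.inr (Finset.mem_filter.2 ⟨hn1, hn2, p, hp1, hp2, c4.1, c4.2.1, c4.2.2⟩)
  have hb1 := Finset.sum_le_sum_of_subset_of_nonneg hsub (f := S.WW) (fun n _ _ => hnn n)
  have hb2 := sum_union_le F1 (F2 ∪ (F3 ∪ (F4 ∪ F5))) S.WW hnn
  have hb3 := sum_union_le F2 (F3 ∪ (F4 ∪ F5)) S.WW hnn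
  have hb4 := sum_union_le F3 (F4 ∪ F5) S.WW hnn
  have hb5 := sum_union_le F4 F5 S.WW hnn
  linarith

/-! ### The initial cell -/

theorem pow_sub_one_le (s : ℝ) (hs0 : 0 < s) (hs1 : s ≤ 1) (n : ℕ) :
    ((n + 1 : ℕ) : ℝ) ^ (s - 1) ≤ (((n + 1 : ℕ) : ℝ) ^ s - (n : ℝ) ^ s) / s := by
  rw [le_div_iff₀ hs0]
  have hn : (0 : ℝ) < ((n + 1 : ℕ) : ℝ) := by positivity
  have hb := rpow_one_add_le_one_add_mul_self (s := -(1 / ((n + 1 : ℕ) : ℝ))) (by
    have : 1 / ((n + 1 : ℕ) : ℝ) ≤ 1 := by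
      rw [div_le_one hn]
      push_cast
      have : (0 : ℝ) ≤ n := Nat.cast_nonneg n
      linarith
    linarith) hs0.le hs1
  have e1 : 1 + -(1 / ((n + 1 : ℕ) : ℝ)) = (n : ℝ) / ((n + 1 : ℕ) : ℝ) := by
    field_simp
    push_cast
    ring
  rw [e1, Real.div_rpow (Nat.cast_nonneg n) hn.le, div_le_iff₀ (Real.rpow_pos_of_pos hn s)] at hb
  have e2 : ((n + 1 : ℕ) : ℝ) ^ (s - 1) = ((n + 1 : ℕ) : ℝ) ^ s / ((n + 1 : ℕ) : ℝ) := by
    rw [Real.rpow_sub_one hn.ne']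
  rw [e2]
  have e3 : (1 + s * -(1 / ((n + 1 : ℕ) : ℝ))) * ((n + 1 : ℕ) : ℝ) ^ s =
      ((n + 1 : ℕ) : ℝ) ^ s - ((n + 1 : ℕ) : ℝ) ^ s / ((n + 1 : ℕ) : ℝ) * s := by
    field_simp
    ring
  rw [e3] at hb
  linarith

theorem sum_pow_le (s : ℝ) (hs0 : 0 < s) (hs1 : s ≤ 1) (N : ℕ) :
    ∑ n ∈ Finset.Ico 1 (N + 1), (n : ℝ) ^ (s - 1) ≤ (N : ℝ) ^ s / s := by
  induction N with
  | zero => simp [Real.zero_rpow hs0.ne']
  | succ N ih =>
    rw [Finset.sum_Ico_succ_top (by omega)]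
    have h := pow_sub_one_le s hs0 hs1 N
    have e : (((N + 1 : ℕ) : ℝ) ^ s - (N : ℝ) ^ s) / s =
        ((N + 1 : ℕ) : ℝ) ^ s / s - (N : ℝ) ^ s / s := by ring
    rw [e] at h
    linarith

theorem list_prod_le (wt : ℕ → ℝ) (r M : ℝ) (hM : 0 ≤ M) : ∀ l : List ℕ,
    (∀ p ∈ l, 0 < p ∧ 0 ≤ wt p ∧ wt p ≤ (p : ℝ) ^ r * M) →
    (l.map wt).prod ≤ ((l.prod : ℕ) : ℝ) ^ r * M ^ l.length := by
  intro l
  induction l with
  | nil => intro _; simp
  | cons a l ih =>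
    intro h
    have ha := h a List.mem_cons_self
    have hl := ih fun p hp => h p (List.mem_cons_of_mem _ hp)
    rw [List.map_cons, List.prod_cons, List.prod_cons, List.length_cons, Nat.cast_mul,
      Real.mul_rpow (Nat.cast_nonneg _) (Nat.cast_nonneg _), pow_succ]
    have h0 : 0 ≤ (l.map wt).prod := by
      apply List.prod_nonneg
      intro x hx
      obtain ⟨p, hp, rfl⟩ := List.mem_map.1 hx
      exact (h p (List.mem_cons_of_mem _ hp)).2.1
    have h1 : 0 ≤ (a : ℝ) ^ r * M := mul_nonneg (Real.rpow_nonneg (Nat.cast_nonneg _) _) hM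
    calc wt a * (l.map wt).prod ≤ ((a : ℝ) ^ r * M) * (((l.prod : ℕ) : ℝ) ^ r * M ^ l.length) :=
          mul_le_mul ha.2.2 hl h0 h1
      _ = _ := by ring

theorem tendsto_pow_mul (c : ℝ) (hc : 0 < c) :
    Tendsto (fun k : ℕ => (k : ℝ) ^ 3 * (2 : ℝ) ^ (-(c * k))) atTop (𝓝 0) := by
  have hr1 : |(2 : ℝ) ^ (-c)| < 1 := by
    rw [abs_of_pos (by positivity)]
    exact Real.rpow_lt_one_of_one_lt_of_neg (by norm_num) (by linarith)
  have h := tendsto_pow_const_mul_const_pow_of_abs_lt_one 3 hr1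
  refine h.congr fun k => ?_
  rw [← Real.rpow_natCast ((2 : ℝ) ^ (-c)) k, ← Real.rpow_mul (by norm_num)]
  ring_nf

theorem othersInit (P : Par) (h0 : PhiFacts P) (hw : WFacts P) (_hz : WtSize P) (hs : SumWW P)
    (hr : Rankin P) : OthersInit P := by
  intro ε hε
  obtain ⟨hν0, hν1, _, _, _, hd, hsν, hg0, _, _⟩ := h0.small
  have hs0 : 0 < P.s := by rw [hsν]; positivity
  have hs1 : P.s ≤ 1 := by rw [hsν]; linarith
  have hκ := P.κ0
  have hη := P.η0
  obtain ⟨K1, hs⟩ := hs 1 one_pos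
  obtain ⟨K2, hr⟩ := hr
  have hlog2 : 0 < Real.log 2 := Real.log_pos (by norm_num)
  set c1 := P.η * Real.log 2 / 2 with hc1
  have hc10 : 0 < c1 := by positivity
  -- eventual inequalities
  have t1 := (tendsto_pow_mul P.s hs0).eventually (gt_mem_nhds (show (0 : ℝ) < ε / 3 by positivity))
  have t3 := (tendsto_pow_mul (P.κ / 4) (by positivity)).eventually
    (gt_mem_nhds (show (0 : ℝ) < ε / 12 by positivity))
  have t2 : ∀ᶠ k : ℕ in atTop, 3 / (ε * (c1 ^ 4 * P.s)) ≤ (k : ℝ) :=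
    tendsto_natCast_atTop_atTop.eventually_ge_atTop _
  have t4 : ∀ᶠ k : ℕ in atTop, 2 / P.η ≤ (k : ℝ) :=
    tendsto_natCast_atTop_atTop.eventually_ge_atTop _
  have t5 : ∀ᶠ k : ℕ in atTop, 1 / c1 ≤ (k : ℝ) :=
    tendsto_natCast_atTop_atTop.eventually_ge_atTop _
  obtain ⟨K3, hK3⟩ := eventually_atTop.1 (t1.and (t2.and (t3.and (t4.and t5))))
  refine ⟨K1 + K2 + K3 + 1, ?_⟩
  intro k0 hk0 hF S
  obtain ⟨u1, u2, u3, u4, u5⟩ := hK3 k0 (by omega)
  have hk01 : 1 ≤ k0 := by omega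
  have hk0r : (1 : ℝ) ≤ k0 := by exact_mod_cast hk01
  have hnn : ∀ n, 0 ≤ S.WW n := hw.WW_nonneg S hk01
  -- `L = log P1 ≥ c1 k0 ≥ 1`
  set L := Real.log (P.P1 k0) with hL
  have hLge : c1 * k0 ≤ L := by
    have h1 : L = ⌊P.η * k0⌋₊ * Real.log 2 := by
      rw [hL]
      unfold Par.P1
      rw [Nat.cast_pow, Real.log_pow]
      norm_num
    have h2 : P.η * k0 - 1 < ⌊P.η * k0⌋₊ := by
      have := Nat.lt_floor_add_one (P.η * k0)
      linarith
    have h3 : P.η * k0 / 2 ≤ P.η * k0 - 1 := by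
      rw [div_le_iff₀ hη] at u4
      linarith
    rw [h1, hc1]
    nlinarith
  have hL1 : 1 ≤ L := by
    rw [div_le_iff₀ hc10] at u5
    linarith
  set M := (L ^ 2)⁻¹ with hM
  have hM0 : 0 ≤ M := by positivity
  have hM1 : M ≤ 1 := by
    rw [hM]
    apply inv_le_one_of_one_le₀
    nlinarith
  set Q := (Finset.Ico 1 (2 ^ k0)).filter (fun q => S.ctrl q) with hQ
  -- pointwise bound
  have hpt : ∀ n ∈ (Finset.Ico 1 (2 ^ k0)).filter (fun n => ¬ P.Ord k0 n), S.WW n ≤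
      (if n = 1 then 1 else 0) + (n : ℝ) ^ (P.s - 1) * M ^ 2 +
        ∑ q ∈ Q, if q ∣ n then S.WW q * S.WW (n / q) else 0 := by
    intro n hn
    obtain ⟨hn1, hn2⟩ := Finset.mem_filter.1 hn
    rw [Finset.mem_Ico] at hn1
    have hn0 : n ≠ 0 := by omega
    have hA : 0 ≤ (n : ℝ) ^ (P.s - 1) * M ^ 2 := by positivity
    have hB : 0 ≤ ∑ q ∈ Q, if q ∣ n then S.WW q * S.WW (n / q) else 0 := by
      apply Finset.sum_nonneg
      intro q _
      split_ifs
      · exact mul_nonneg (hnn _) (hnn _)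
      · exact le_rfl
    have hI : (0 : ℝ) ≤ if n = 1 then 1 else 0 := by split_ifs <;> norm_num
    by_cases hn1' : n = 1
    · have hW1 : S.WW n = 1 := by rw [hn1']; exact hw.WW_one S
      rw [hW1, if_pos hn1']
      linarith
    by_cases hc : ∃ q, S.ctrl q ∧ q ∣ n
    · obtain ⟨q, hq1, hq2⟩ := hc
      have hqp := (hw.ctrl_prime S hq1).1
      have hqle : q ≤ n := Nat.le_of_dvd (by omega) hq2
      have hqQ : q ∈ Q := Finset.mem_filter.2 ⟨Finset.mem_Ico.2 ⟨hqp.one_lt.le, by omega⟩, hq1⟩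
      have h1 : S.WW n = S.WW q * S.WW (n / q) := by
        have h2 : n / q ≠ 0 := by
          have := Nat.div_pos hqle hqp.pos
          omega
        have h3 := hw.WW_mul S hqp.ne_zero h2
        rw [Nat.mul_div_cancel' hq2] at h3
        exact h3
      have h4 : S.WW n ≤ ∑ q ∈ Q, if q ∣ n then S.WW q * S.WW (n / q) else 0 := by
        have h5 := Finset.single_le_sum (f := fun q => if q ∣ n then S.WW q * S.WW (n / q) else 0)
          (s := Q) (fun q _ => by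
            show (0 : ℝ) ≤ if q ∣ n then S.WW q * S.WW (n / q) else 0
            split_ifs
            · exact mul_nonneg (hnn _) (hnn _)
            · exact le_rfl) hqQ
        simp only [if_pos hq2] at h5
        rw [h1]
        exact h5
      linarith
    · push Not at hc
      by_cases hW : S.WW n = 0
      · rw [hW]
        linarith
      -- all primes of `n` are ordinary
      have hord : ∀ p, p.Prime → p ∣ n → P.Ord k0 p := by
        intro p hp hpn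
        rcases hw.ne_zero S hn0 hW hp hpn with h | h
        · exact absurd hpn (hc p h)
        · exact h
      have hlen : 2 ≤ n.primeFactorsList.length := by
        have hprod := Nat.prod_primeFactorsList hn0
        have hprimes : ∀ p ∈ n.primeFactorsList, p.Prime := fun p hp =>
          Nat.prime_of_mem_primeFactorsList hp
        rcases hl : n.primeFactorsList with _ | ⟨p, _ | ⟨q, l⟩⟩
        · rw [hl] at hprod
          simp at hprod
          omega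
        · exfalso
          rw [hl] at hprod hprimes
          simp only [List.prod_cons, List.prod_nil, mul_one] at hprod
          have hp := hprimes p (by simp)
          rw [hprod] at hp
          exact hn2 (hord n hp dvd_rfl)
        · simp only [List.length_cons]
          omega
      have hbound : S.WW n ≤ (n : ℝ) ^ (P.s - 1) * M ^ n.primeFactorsList.length := by
        have h1 := list_prod_le S.wt (P.s - 1) M hM0 n.primeFactorsList (by
          intro p hp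
          have hpp := Nat.prime_of_mem_primeFactorsList hp
          have hpn := Nat.dvd_of_mem_primeFactorsList hp
          have hpo := hord p hpp hpn
          refine ⟨hpp.pos, hw.wt_nonneg S hk01 p, ?_⟩
          have hnc : ¬ S.ctrl p := fun h => (hw.ctrl_prime S h).2.2.1 hpo
          have hwt : S.wt p = P.phi p := by
            unfold Par.Sel.wt
            rw [if_neg hnc, if_pos hpo]
          rw [hwt]
          unfold Par.phi
          rw [div_eq_mul_inv]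
          apply mul_le_mul_of_nonneg_left _ (Real.rpow_nonneg (Nat.cast_nonneg _) _)
          rw [hM]
          have hP1 : (0 : ℝ) < P.P1 k0 := by
            unfold Par.P1
            positivity
          have hlogp : L ≤ Real.log p := Real.log_le_log hP1 (by exact_mod_cast hpo.2.1)
          apply inv_anti₀ (by positivity)
          nlinarith)
        rw [Nat.prod_primeFactorsList hn0] at h1
        exact h1
      have h2 : M ^ n.primeFactorsList.length ≤ M ^ 2 := pow_le_pow_of_le_one hM0 hM1 hlen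
      have h3 : (n : ℝ) ^ (P.s - 1) * M ^ n.primeFactorsList.length ≤
          (n : ℝ) ^ (P.s - 1) * M ^ 2 :=
        mul_le_mul_of_nonneg_left h2 (Real.rpow_nonneg (Nat.cast_nonneg _) _)
      linarith
  -- extending the range of summation
  have hsum1 : ∑ n ∈ (Finset.Ico 1 (2 ^ k0)).filter (fun n => ¬ P.Ord k0 n), S.WW n ≤
      ∑ n ∈ Finset.Ico (1 : ℕ) (2 ^ k0), ((if n = 1 then (1 : ℝ) else 0) +
        (n : ℝ) ^ (P.s - 1) * M ^ 2 +
        ∑ q ∈ Q, if q ∣ n then S.WW q * S.WW (n / q) else 0) := by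
    refine (Finset.sum_le_sum hpt).trans ?_
    apply Finset.sum_le_sum_of_subset_of_nonneg (Finset.filter_subset _ _)
    intro n _ _
    have hA : 0 ≤ (n : ℝ) ^ (P.s - 1) * M ^ 2 := by positivity
    have hB : 0 ≤ ∑ q ∈ Q, if q ∣ n then S.WW q * S.WW (n / q) else 0 := by
      apply Finset.sum_nonneg
      intro q _
      split_ifs
      · exact mul_nonneg (hnn _) (hnn _)
      · exact le_rfl
    have hI : (0 : ℝ) ≤ if n = 1 then 1 else 0 := by split_ifs <;> norm_num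
    linarith
  rw [Finset.sum_add_distrib, Finset.sum_add_distrib, ← Finset.sum_mul] at hsum1
  -- first part
  have hp1 : ∑ n ∈ Finset.Ico (1 : ℕ) (2 ^ k0), (if n = 1 then (1 : ℝ) else 0) ≤ 1 := by
    rw [Finset.sum_ite_eq']
    split_ifs <;> norm_num
  -- second part
  have h2s : ((2 ^ k0 : ℕ) : ℝ) ^ P.s = (2 : ℝ) ^ (P.s * k0) := by
    rw [Nat.cast_pow, Nat.cast_ofNat, ← Real.rpow_natCast, ← Real.rpow_mul (by norm_num)]
    congr 1
    ring
  have hp2 : ∑ n ∈ Finset.Ico (1 : ℕ) (2 ^ k0), (n : ℝ) ^ (P.s - 1) ≤ (2 : ℝ) ^ (P.s * k0) / P.s := by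
    have h1 := sum_pow_le P.s hs0 hs1 (2 ^ k0)
    rw [h2s] at h1
    refine le_trans ?_ h1
    apply Finset.sum_le_sum_of_subset_of_nonneg
    · intro n hn
      rw [Finset.mem_Ico] at hn ⊢
      omega
    · intro n _ _
      positivity
  -- third part
  have hp3 : ∑ n ∈ Finset.Ico (1 : ℕ) (2 ^ k0), (∑ q ∈ Q, if q ∣ n then S.WW q * S.WW (n / q) else 0) ≤
      4 * (2 : ℝ) ^ (P.s * k0) * (2 : ℝ) ^ (-(P.κ / 4 * k0)) := by
    rw [Finset.sum_comm]
    have hq : ∀ q ∈ Q, ∑ n ∈ Finset.Ico (1 : ℕ) (2 ^ k0),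
        (if q ∣ n then S.WW q * S.WW (n / q) else 0) ≤
        2 * (2 : ℝ) ^ (P.s * k0) * (S.WW q * (q : ℝ) ^ (-P.s)) := by
      intro q hqQ
      have hqc := (Finset.mem_filter.1 hqQ).2
      have hqp := (hw.ctrl_prime S hqc).1
      have hq0 : (0 : ℝ) < q := by exact_mod_cast hqp.pos
      -- reindex by `a = n / q`
      set T := (Finset.Ico 1 (2 ^ k0)).filter (fun a => q * a < 2 ^ k0) with hT
      have e1 : ∑ n ∈ Finset.Ico (1 : ℕ) (2 ^ k0), (if q ∣ n then S.WW q * S.WW (n / q) else 0) =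
          ∑ a ∈ T, S.WW q * S.WW a := by
        rw [← Finset.sum_filter]
        symm
        apply Finset.sum_bij (fun a _ => q * a)
        · intro a ha
          obtain ⟨ha1, ha2⟩ := Finset.mem_filter.1 ha
          rw [Finset.mem_Ico] at ha1
          refine Finset.mem_filter.2 ⟨Finset.mem_Ico.2 ⟨?_, ha2⟩, dvd_mul_right _ _⟩
          exact Nat.mul_pos hqp.pos (by omega)
        · intro a _ a' _ h
          exact Nat.eq_of_mul_eq_mul_left hqp.pos h
        · intro n hn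
          obtain ⟨hn1, hn2⟩ := Finset.mem_filter.1 hn
          rw [Finset.mem_Ico] at hn1
          obtain ⟨a, rfl⟩ := hn2
          have ha0 : 0 < a := Nat.pos_of_ne_zero (by rintro rfl; simp at hn1)
          refine ⟨a, Finset.mem_filter.2 ⟨Finset.mem_Ico.2 ⟨ha0, ?_⟩, hn1.2⟩, rfl⟩
          have : a ≤ q * a := Nat.le_mul_of_pos_left a hqp.pos
          omega
        · intro a _
          rw [Nat.mul_div_cancel_left a hqp.pos]
      rw [e1, ← Finset.mul_sum]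
      have e2 : ∑ a ∈ T, S.WW a ≤ (2 : ℝ) ^ (P.s * k0) * (q : ℝ) ^ (-P.s) *
          ∑ a ∈ T, S.WW a * (a : ℝ) ^ (-P.s) := by
        rw [Finset.mul_sum]
        apply Finset.sum_le_sum
        intro a ha
        obtain ⟨ha1, ha2⟩ := Finset.mem_filter.1 ha
        rw [Finset.mem_Ico] at ha1
        have ha0 : (0 : ℝ) < a := by exact_mod_cast ha1.1
        have h1 : ((q : ℝ) * a) ^ P.s ≤ (2 : ℝ) ^ (P.s * k0) := by
          rw [← h2s]
          apply Real.rpow_le_rpow (by positivity) _ hs0.le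
          exact_mod_cast ha2.le
        rw [Real.mul_rpow hq0.le ha0.le] at h1
        have h3 : 0 < (q : ℝ) ^ P.s := Real.rpow_pos_of_pos hq0 _
        have h4 : 0 < (a : ℝ) ^ P.s := Real.rpow_pos_of_pos ha0 _
        rw [Real.rpow_neg hq0.le, Real.rpow_neg ha0.le]
        have h5 : 1 ≤ (2 : ℝ) ^ (P.s * k0) * ((q : ℝ) ^ P.s)⁻¹ * ((a : ℝ) ^ P.s)⁻¹ := by
          rw [mul_assoc, ← mul_inv, ← div_eq_mul_inv, le_div_iff₀ (by positivity)]
          linarith
        calc S.WW a = S.WW a * 1 := by ring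
          _ ≤ S.WW a * ((2 : ℝ) ^ (P.s * k0) * ((q : ℝ) ^ P.s)⁻¹ * ((a : ℝ) ^ P.s)⁻¹) :=
              mul_le_mul_of_nonneg_left h5 (hnn a)
          _ = _ := by ring
      have e3 : ∑ a ∈ T, S.WW a * (a : ℝ) ^ (-P.s) ≤ 2 := by
        have h1 : ∑ a ∈ T, S.WW a * (a : ℝ) ^ (-P.s) ≤
            ∑ a ∈ {1} ∪ T.filter (fun a => 2 ≤ a), S.WW a * (a : ℝ) ^ (-P.s) := by
          apply Finset.sum_le_sum_of_subset_of_nonneg
          · intro a ha
            have ha1 := (Finset.mem_Ico.1 (Finset.mem_filter.1 ha).1).1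
            rw [Finset.mem_union, Finset.mem_singleton, Finset.mem_filter]
            by_cases h : a = 1
            · exact Or.inl h
            · exact Or.inr ⟨ha, by omega⟩
          · intro a _ _
            exact mul_nonneg (hnn a) (Real.rpow_nonneg (Nat.cast_nonneg _) _)
        have h2 := sum_union_le {1} (T.filter (fun a => 2 ≤ a))
          (fun a : ℕ => S.WW a * (a : ℝ) ^ (-P.s))
          (fun a => mul_nonneg (hnn a) (Real.rpow_nonneg (Nat.cast_nonneg _) _))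
        have h3 := hs k0 (by omega) hF S (T.filter (fun a => 2 ≤ a))
          (fun r hr => (Finset.mem_filter.1 hr).2)
        have h4 : ∑ a ∈ ({1} : Finset ℕ), S.WW a * (a : ℝ) ^ (-P.s) = 1 := by
          rw [Finset.sum_singleton, hw.WW_one S]
          simp
        linarith
      have hpos : 0 ≤ (2 : ℝ) ^ (P.s * k0) * (q : ℝ) ^ (-P.s) := by positivity
      have e4 : ∑ a ∈ T, S.WW a ≤ (2 : ℝ) ^ (P.s * k0) * (q : ℝ) ^ (-P.s) * 2 :=
        e2.trans (mul_le_mul_of_nonneg_left e3 hpos)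
      calc S.WW q * ∑ a ∈ T, S.WW a ≤ S.WW q * ((2 : ℝ) ^ (P.s * k0) * (q : ℝ) ^ (-P.s) * 2) :=
            mul_le_mul_of_nonneg_left e4 (hnn q)
        _ = _ := by ring
    refine (Finset.sum_le_sum hq).trans ?_
    rw [← Finset.mul_sum]
    have hran := hr k0 (by omega) hF S ((2 : ℝ) ^ ((k0 : ℝ) / 2))
      (Real.one_le_rpow (by norm_num) (by positivity)) Q (by
        intro q hqQ
        have hqc := (Finset.mem_filter.1 hqQ).2
        obtain ⟨hqp, hqcand, _, _, _⟩ := hw.ctrl_prime S hqc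
        obtain ⟨k, hk, m, hm⟩ := hqcand
        refine ⟨?_, hqp.one_lt.le, ?_⟩
        · have h1 : (2 : ℝ) ^ ((1/2 + P.κ) * k) ≤ q := hm.2.2.2.2.1
          refine le_trans ?_ h1
          apply Real.rpow_le_rpow_of_exponent_le (by norm_num)
          have hkr : (k0 : ℝ) ≤ k := by exact_mod_cast hk
          nlinarith
        · intro p hp hpq
          rw [(Nat.prime_dvd_prime_iff_eq hp hqp).1 hpq]
          exact hqc)
    have e5 : ((2 : ℝ) ^ ((k0 : ℝ) / 2)) ^ (-(P.κ / 2)) = (2 : ℝ) ^ (-(P.κ / 4 * k0)) := by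
      rw [← Real.rpow_mul (by norm_num)]
      congr 1
      ring
    rw [e5] at hran
    calc 2 * (2 : ℝ) ^ (P.s * k0) * ∑ q ∈ Q, S.WW q * (q : ℝ) ^ (-P.s) ≤
          2 * (2 : ℝ) ^ (P.s * k0) * (2 * (2 : ℝ) ^ (-(P.κ / 4 * k0))) :=
          mul_le_mul_of_nonneg_left hran (by positivity)
      _ = _ := by ring
  -- final numerical inequalities
  have hk3 : (0 : ℝ) < (k0 : ℝ) ^ 3 := by positivity
  have hX : 0 < (2 : ℝ) ^ (P.s * k0) := by positivity
  have f1 : (1 : ℝ) ≤ ε / 3 * ((2 : ℝ) ^ (P.s * k0) / k0 ^ 3) := by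
    rw [Real.rpow_neg (by norm_num), ← div_eq_mul_inv, div_lt_iff₀ hX] at u1
    rw [← mul_div_assoc, le_div_iff₀ hk3]
    linarith
  have f3 : 4 * (2 : ℝ) ^ (P.s * k0) * (2 : ℝ) ^ (-(P.κ / 4 * k0)) ≤
      ε / 3 * ((2 : ℝ) ^ (P.s * k0) / k0 ^ 3) := by
    rw [← mul_div_assoc, le_div_iff₀ hk3]
    calc 4 * (2 : ℝ) ^ (P.s * k0) * (2 : ℝ) ^ (-(P.κ / 4 * k0)) * (k0 : ℝ) ^ 3 =
        4 * (2 : ℝ) ^ (P.s * k0) * ((k0 : ℝ) ^ 3 * (2 : ℝ) ^ (-(P.κ / 4 * k0))) := by ring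
      _ ≤ 4 * (2 : ℝ) ^ (P.s * k0) * (ε / 12) :=
        mul_le_mul_of_nonneg_left u3.le (by positivity)
      _ = _ := by ring
  have f2 : (2 : ℝ) ^ (P.s * k0) / P.s * M ^ 2 ≤ ε / 3 * ((2 : ℝ) ^ (P.s * k0) / k0 ^ 3) := by
    have hL0 : 0 < L := by linarith
    have hM2 : M ^ 2 = 1 / L ^ 4 := by
      rw [hM]
      field_simp
    have hLk : (c1 * k0) ^ 4 ≤ L ^ 4 := pow_le_pow_left₀ (by positivity) hLge 4
    have h1 : 1 / L ^ 4 ≤ 1 / (c1 * k0) ^ 4 := one_div_le_one_div_of_le (by positivity) hLk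
    rw [div_le_iff₀ (by positivity)] at u2
    have h2 : 1 / P.s * (1 / (c1 * k0) ^ 4) ≤ ε / 3 / k0 ^ 3 := by
      rw [div_mul_div_comm, one_mul, div_div, div_le_div_iff₀ (by positivity) (by positivity)]
      calc 1 * (3 * (k0 : ℝ) ^ 3) = 3 * (k0 : ℝ) ^ 3 := by ring
        _ ≤ (k0 * (ε * (c1 ^ 4 * P.s))) * (k0 : ℝ) ^ 3 := mul_le_mul_of_nonneg_right u2 hk3.le
        _ = _ := by ring
    rw [hM2]
    calc (2 : ℝ) ^ (P.s * k0) / P.s * (1 / L ^ 4) ≤
          (2 : ℝ) ^ (P.s * k0) / P.s * (1 / (c1 * k0) ^ 4) :=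
          mul_le_mul_of_nonneg_left h1 (by positivity)
      _ = (2 : ℝ) ^ (P.s * k0) * (1 / P.s * (1 / (c1 * k0) ^ 4)) := by ring
      _ ≤ (2 : ℝ) ^ (P.s * k0) * (ε / 3 / k0 ^ 3) := mul_le_mul_of_nonneg_left h2 hX.le
      _ = _ := by ring
  have hp2' : (∑ n ∈ Finset.Ico (1 : ℕ) (2 ^ k0), (n : ℝ) ^ (P.s - 1)) * M ^ 2 ≤
      (2 : ℝ) ^ (P.s * k0) / P.s * M ^ 2 := mul_le_mul_of_nonneg_right hp2 (by positivity)
  linarith

end Pool.Agent.Helper65.QRH
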